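import Mathlib

/-! Definitions for the statement: Bergman space, Bergman determinantal point process, admissible
weights and the quantity `Delta`. -/

namespace Pool.Agent.MP_7cfdbb_an

open MeasureTheory

/-- Normalised area measure on the open unit disc. -/
noncomputable def dA : Measure ℂ :=
  (ENNReal.ofReal Real.pi)⁻¹ • volume.restrict (Metric.ball (0 : ℂ) 1)

/-- The Bergman kernel of the disc. -/
noncomputable def K (x y : ℂ) : ℂ := ((1 - x * (starRingEnd ℂ) y) ^ 2)⁻¹

/-- Locally finite subsets of the open unit disc. -/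
structure Conf where
  pts : Set ℂ
  sub : pts ⊆ Metric.ball 0 1
  locFin : ∀ r : ℝ, r < 1 → (pts ∩ Metric.closedBall 0 r).Finite

/-- The sigma-algebra generated by the numbers of points in relatively compact Borel sets. -/
instance confMeasurableSpace : MeasurableSpace Conf :=
  MeasurableSpace.generateFrom
    {S | ∃ (B : Set ℂ) (r : ℝ) (k : ℕ), MeasurableSet B ∧ r < 1 ∧ B ⊆ Metric.closedBall 0 r ∧
      S = {X : Conf | (X.pts ∩ B).ncard = k}}

/-- `P` is a probability measure on configurations whose `n`-point correlation functions with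
respect to `dA` are the determinants of the Bergman kernel: the expected number of ordered
`n`-tuples of distinct points lying in a relatively compact Borel set `E` is the integral over `E`
of the determinant. -/
structure IsDPP (P : Measure Conf) : Prop where
  prob : IsProbabilityMeasure P
  corr : ∀ (n : ℕ) (E : Set (Fin n → ℂ)) (r : ℝ), MeasurableSet E → r < 1 →
    (∀ a ∈ E, ∀ i, ‖a i‖ ≤ r) →
    ∫⁻ X, (({a ∈ E | Function.Injective a ∧ ∀ i, a i ∈ X.pts}.ncard : ℕ) : ENNReal) ∂P =
      ∫⁻ a in E, ENNReal.ofReal (Matrix.det (Matrix.of fun i j => K (a i) (a j))).re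
        ∂(Measure.pi fun _ => dA)

/-- Admissible weights (extended by zero outside the disc). -/
structure Admissible (R : ℂ → ℝ) : Prop where
  nonneg : ∀ x, 0 ≤ R x
  bdd : ∃ C : ℝ, ∀ x, R x ≤ C
  radial : ∀ x y : ℂ, ‖x‖ = ‖y‖ → R x = R y
  cpt : ∃ r : ℝ, r < 1 ∧ ∀ x : ℂ, r < ‖x‖ → R x = 0
  ne : ¬ (R =ᵐ[dA] 0)

/-- The disc automorphism sending `z` to `0`. -/
noncomputable def phi (z x : ℂ) : ℂ := (x - z) / (1 - (starRingEnd ℂ) z * x)

/-- The weighted sum of the values of `f` over the configuration. -/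
noncomputable def gX (R : ℂ → ℝ) (X : Conf) (z : ℂ) (f : ℂ → ℂ) : ℂ :=
  ∑ᶠ x ∈ X.pts, f x * (R (phi z x) : ℂ)

/-- The expectation of the weighted sum for the constant function one. -/
noncomputable def gP (P : Measure Conf) (R : ℂ → ℝ) (z : ℂ) : ℂ :=
  ∫ X, gX R X z (fun _ => 1) ∂P

/-- The closed unit ball of the Bergman space. -/
structure BergmanBall (f : ℂ → ℂ) : Prop where
  holo : DifferentiableOn ℂ f (Metric.ball 0 1)
  norm_le : ∫⁻ w, ‖f w‖ₑ ^ 2 ∂dA ≤ 1

/-- The best uniform interpolation error at `z` for the configuration `X`. -/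
noncomputable def Delta (P : Measure Conf) (z : ℂ) (X : Conf) : ENNReal :=
  ⨅ (R : ℂ → ℝ) (_ : Admissible R), ⨆ (f : ℂ → ℂ) (_ : BergmanBall f),
    ‖f z - gX R X z f / gP P R z‖ₑ

end Pool.Agent.MP_7cfdbb_an
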